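import Pool.Agent.H32.F14.Iface

/-!
# Part T of MP_39c6f6_co: maximal Tutte barriers
-/

set_option autoImplicit false

noncomputable section

open Classical Finset

namespace Pool.Agent.H34.F14

open Pool.Agent.H32.F14

/-- `P` is a partition of `K` into nonempty parts without edges between different parts. -/
structure Sep {V : Type} [Fintype V] (H : SimpleGraph V) (K : Finset V) (P : Finset (Finset V)) :
    Prop where
  sub : ∀ C ∈ P, C ⊆ K
  cov : ∀ v ∈ K, ∃ C ∈ P, v ∈ C
  disj : ∀ C ∈ P, ∀ C' ∈ P, C ≠ C' → Disjoint C C'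
  ne : ∀ C ∈ P, C.Nonempty
  sepa : ∀ C ∈ P, ∀ v ∈ C, ∀ w, H.Adj v w → w ∈ K → w ∈ C

/-- number of odd parts -/
def oddc {V : Type} (P : Finset (Finset V)) : ℕ := (P.filter (fun C => Odd C.card)).card

lemma tutteW (W : Type) [Fintype W] (G : SimpleGraph W) :
    (∃ m : W → W, ∀ u, G.Adj u (m u) ∧ m (m u) = u) ∨
    (∃ (U K0 : Finset W) (P : Finset (Finset W)), (∀ w, w ∈ K0 ↔ w ∉ U) ∧ Sep G K0 P ∧
      U.card < oddc P) := by
  by_cases h : ∃ M : G.Subgraph, M.IsPerfectMatching
  · left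
    obtain ⟨M, hM⟩ := h
    have h1 : ∀ v, ∃! w, M.Adj v w := fun v => hM.1 (hM.2 v)
    choose m hm hu using h1
    refine ⟨m, fun u => ⟨M.adj_sub (hm u), ?_⟩⟩
    exact (hu (m u) u (hm u).symm).symm
  · right
    rw [SimpleGraph.tutte] at h
    obtain ⟨u, hu⟩ := not_forall.1 h
    rw [not_not] at hu
    unfold SimpleGraph.IsTutteViolator at hu
    set A := ((⊤ : G.Subgraph).deleteVerts u) with hA
    have hmem : ∀ w, w ∈ A.verts ↔ w ∉ u := by
      intro w; simp [hA]
    have hadj : ∀ (a b : A.verts), A.coe.Adj a b ↔ G.Adj a.1 b.1 := by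
      intro a b
      have ha := (hmem a.1).1 a.2
      have hb := (hmem b.1).1 b.2
      simp [hA, ha, hb]
    let f : A.coe.ConnectedComponent → Finset W := fun c =>
      univ.filter (fun w => ∃ h : w ∈ A.verts, A.coe.connectedComponentMk ⟨w, h⟩ = c)
    have hf : ∀ c w, w ∈ f c ↔ ∃ h : w ∈ A.verts, A.coe.connectedComponentMk ⟨w, h⟩ = c := by
      intro c w; simp [f]
    have hinj : Function.Injective f := by
      intro c c' hcc
      obtain ⟨⟨w, hw⟩, hwc⟩ := c.exists_rep
      have : w ∈ f c := (hf c w).2 ⟨hw, hwc⟩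
      rw [hcc, hf] at this
      obtain ⟨h, h'⟩ := this
      rw [← hwc]; exact h'
    have hcard : ∀ c, (f c).card = c.supp.ncard := by
      intro c
      rw [← Set.ncard_coe_finset]
      have : ((f c : Finset W) : Set W) = Subtype.val '' c.supp := by
        ext w
        simp only [Finset.mem_coe, hf, Set.mem_image, SimpleGraph.ConnectedComponent.mem_supp_iff,
          Subtype.exists, exists_and_right, exists_eq_right]
      rw [this, Set.ncard_image_of_injective _ Subtype.val_injective]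
    refine ⟨univ.filter (fun w => w ∈ u), (univ.filter (fun w => w ∈ u))ᶜ, univ.image f,
      fun w => by simp, ⟨?_, ?_, ?_, ?_, ?_⟩, ?_⟩
    · intro C hC w hw
      simp only [mem_image, mem_univ, true_and] at hC
      obtain ⟨c, rfl⟩ := hC
      obtain ⟨h, -⟩ := (hf c w).1 hw
      simpa using (hmem w).1 h
    · intro v hv
      have hv' : v ∈ A.verts := (hmem v).2 (by simpa using hv)
      exact ⟨f (A.coe.connectedComponentMk ⟨v, hv'⟩), by simp, (hf _ _).2 ⟨hv', rfl⟩⟩
    · intro C hC C' hC' hne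
      simp only [mem_image, mem_univ, true_and] at hC hC'
      obtain ⟨c, rfl⟩ := hC
      obtain ⟨c', rfl⟩ := hC'
      rw [Finset.disjoint_left]
      intro w hw hw'
      obtain ⟨h, h1⟩ := (hf c w).1 hw
      obtain ⟨h', h2⟩ := (hf c' w).1 hw'
      exact hne (by rw [← h1, ← h2])
    · intro C hC
      simp only [mem_image, mem_univ, true_and] at hC
      obtain ⟨c, rfl⟩ := hC
      obtain ⟨⟨w, hw⟩, hwc⟩ := c.exists_rep
      exact ⟨w, (hf c w).2 ⟨hw, hwc⟩⟩
    · intro C hC v hv w hvw hw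
      simp only [mem_image, mem_univ, true_and] at hC
      obtain ⟨c, rfl⟩ := hC
      obtain ⟨h, h1⟩ := (hf c v).1 hv
      have hw' : w ∈ A.verts := (hmem w).2 (by simpa using hw)
      refine (hf c w).2 ⟨hw', ?_⟩
      rw [← h1]
      refine SimpleGraph.ConnectedComponent.sound ?_
      exact SimpleGraph.Adj.reachable ((hadj ⟨w, hw'⟩ ⟨v, h⟩).2 hvw.symm)
    · have e1 : (univ.filter (fun w => w ∈ u)).card = u.ncard := by
        rw [← Set.ncard_coe_finset]; congr 1; ext; simp
      rw [e1]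
      refine lt_of_lt_of_le hu ?_
      unfold oddc
      have e2 : (univ.image f).filter (fun C => Odd C.card) =
          (univ.filter (fun c : A.coe.ConnectedComponent => Odd c.supp.ncard)).image f := by
        ext C
        simp only [mem_filter, mem_image, mem_univ, true_and]
        constructor
        · rintro ⟨⟨c, rfl⟩, h⟩
          exact ⟨c, by rw [← hcard]; exact h, rfl⟩
        · rintro ⟨c, h, rfl⟩
          exact ⟨⟨c, rfl⟩, by rw [hcard]; exact h⟩
      rw [e2, card_image_of_injective _ hinj, ← Set.ncard_coe_finset]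
      apply le_of_eq
      congr 1
      ext c; simp


lemma tutteF {V : Type} [Fintype V] (H : SimpleGraph V) (K : Finset V) :
    (∃ m : V → V, ∀ u ∈ K, m u ∈ K ∧ H.Adj u (m u) ∧ m (m u) = u) ∨
    (∃ U : Finset V, U ⊆ K ∧ ∃ P : Finset (Finset V), Sep H (K \ U) P ∧ U.card < oddc P) := by
  rcases tutteW {x // x ∈ K} (H.comap Subtype.val) with ⟨m, hm⟩ | ⟨U, K0, P, hK0, hP, hU⟩
  · left
    refine ⟨fun u => if h : u ∈ K then (m ⟨u, h⟩).1 else u, ?_⟩
    intro u hu
    obtain ⟨h1, h2⟩ := hm ⟨u, hu⟩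
    have e1 : (if h : u ∈ K then (m ⟨u, h⟩).1 else u) = (m ⟨u, hu⟩).1 := dif_pos hu
    show (if h : u ∈ K then (m ⟨u, h⟩).1 else u) ∈ K ∧
      H.Adj u (if h : u ∈ K then (m ⟨u, h⟩).1 else u) ∧
      (if h : (if h : u ∈ K then (m ⟨u, h⟩).1 else u) ∈ K then
        (m ⟨(if h : u ∈ K then (m ⟨u, h⟩).1 else u), h⟩).1 else
          (if h : u ∈ K then (m ⟨u, h⟩).1 else u)) = u
    simp only [e1]
    refine ⟨(m ⟨u, hu⟩).2, h1, ?_⟩
    rw [dif_pos (m ⟨u, hu⟩).2]
    exact congrArg Subtype.val h2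
  · right
    let em : {x // x ∈ K} ↪ V := Function.Embedding.subtype _
    have hem : ∀ (C : Finset {x // x ∈ K}) (w : V), w ∈ C.map em ↔ ∃ h : w ∈ K, (⟨w, h⟩ : {x // x ∈ K}) ∈ C := by
      intro C w
      simp [em]
    refine ⟨U.map em, ?_, P.image (fun C => C.map em), ⟨?_, ?_, ?_, ?_, ?_⟩, ?_⟩
    · intro w hw
      exact ((hem _ _).1 hw).1
    · intro C hC w hw
      obtain ⟨C0, hC0, rfl⟩ := mem_image.1 hC
      obtain ⟨h, h1⟩ := (hem _ _).1 hw
      rw [mem_sdiff]
      refine ⟨h, fun h2 => ?_⟩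
      obtain ⟨_, h3⟩ := (hem _ _).1 h2
      exact ((hK0 _).1 (hP.sub C0 hC0 h1)) h3
    · intro v hv
      obtain ⟨hv1, hv2⟩ := mem_sdiff.1 hv
      obtain ⟨C, hC, hvC⟩ := hP.cov ⟨v, hv1⟩ (by
        rw [hK0]; intro h; exact hv2 ((hem _ _).2 ⟨hv1, h⟩))
      exact ⟨C.map em, mem_image_of_mem _ hC, (hem _ _).2 ⟨hv1, hvC⟩⟩
    · intro C hC C' hC' hne
      obtain ⟨C0, hC0, rfl⟩ := mem_image.1 hC
      obtain ⟨C1, hC1, rfl⟩ := mem_image.1 hC'
      have h01 : C0 ≠ C1 := by rintro rfl; exact hne rfl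
      have := hP.disj C0 hC0 C1 hC1 h01
      rw [Finset.disjoint_left] at this ⊢
      intro w hw hw'
      obtain ⟨h, h1⟩ := (hem _ _).1 hw
      obtain ⟨h', h2⟩ := (hem _ _).1 hw'
      exact this h1 h2
    · intro C hC
      obtain ⟨C0, hC0, rfl⟩ := mem_image.1 hC
      obtain ⟨x, hx⟩ := hP.ne C0 hC0
      exact ⟨x.1, (hem _ _).2 ⟨x.2, hx⟩⟩
    · intro C hC v hv w hvw hw
      obtain ⟨C0, hC0, rfl⟩ := mem_image.1 hC
      obtain ⟨h, h1⟩ := (hem _ _).1 hv
      obtain ⟨hw1, hw2⟩ := mem_sdiff.1 hw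
      refine (hem _ _).2 ⟨hw1, ?_⟩
      refine hP.sepa C0 hC0 ⟨v, h⟩ h1 ⟨w, hw1⟩ hvw ?_
      rw [hK0]; intro h3; exact hw2 ((hem _ _).2 ⟨hw1, h3⟩)
    · rw [card_map]
      refine lt_of_lt_of_le hU (le_of_eq ?_)
      unfold oddc
      have e2 : (P.image (fun C => C.map em)).filter (fun C => Odd C.card) =
          (P.filter (fun C => Odd C.card)).image (fun C => C.map em) := by
        ext C
        simp only [mem_filter, mem_image]
        constructor
        · rintro ⟨⟨c, hc, rfl⟩, h⟩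
          exact ⟨c, ⟨hc, by rwa [card_map] at h⟩, rfl⟩
        · rintro ⟨c, ⟨hc, h⟩, rfl⟩
          exact ⟨⟨c, hc, rfl⟩, by rwa [card_map]⟩
      rw [e2, card_image_of_injective _ (Finset.map_injective em)]

section
variable {V : Type} [Fintype V] {H : SimpleGraph V}

lemma Sep.parity {K : Finset V} {P : Finset (Finset V)} (h : Sep H K P) :
    Odd K.card ↔ Odd (oddc P) := by
  have h1 : K = P.biUnion id := by
    ext v
    simp only [mem_biUnion, id]
    constructor
    · intro hv; exact h.cov v hv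
    · rintro ⟨C, hC, hv⟩; exact h.sub C hC hv
  have h2 : K.card = ∑ C ∈ P, C.card := by
    rw [h1, card_biUnion]
    · rfl
    · intro C hC C' hC' hne; exact h.disj C hC C' hC' hne
  rw [h2, Finset.odd_sum_iff_odd_card_odd]
  rfl

/-- replace the part `C` -/
lemma Sep.replace {S U C : Finset V} {Q P : Finset (Finset V)} (h : Sep H Sᶜ Q) (hC : C ∈ Q)
    (hU : U ⊆ C) (hP : Sep H (C \ U) P) :
    Sep H (S ∪ U)ᶜ (Q.erase C ∪ P) ∧ oddc (Q.erase C ∪ P) = oddc (Q.erase C) + oddc P := by
  have hPC : ∀ D ∈ P, D ⊆ C := fun D hD => (hP.sub D hD).trans sdiff_subset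
  have hQC : ∀ D ∈ Q.erase C, Disjoint D C := fun D hD =>
    h.disj D (mem_of_mem_erase hD) C hC (ne_of_mem_erase hD)
  constructor
  · refine ⟨?_, ?_, ?_, ?_, ?_⟩
    · intro D hD v hv
      rw [mem_compl, mem_union, not_or]
      rcases mem_union.1 hD with hD | hD
      · refine ⟨mem_compl.1 (h.sub D (mem_of_mem_erase hD) hv), fun hvU => ?_⟩
        exact (Finset.disjoint_left.1 (hQC D hD)) hv (hU hvU)
      · have h1 := mem_sdiff.1 (hP.sub D hD hv)
        exact ⟨mem_compl.1 (h.sub C hC h1.1), h1.2⟩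
    · intro v hv
      rw [mem_compl, mem_union, not_or] at hv
      obtain ⟨D, hD, hvD⟩ := h.cov v (mem_compl.2 hv.1)
      by_cases hDC : D = C
      · subst hDC
        obtain ⟨D', hD', hv'⟩ := hP.cov v (mem_sdiff.2 ⟨hvD, hv.2⟩)
        exact ⟨D', mem_union_right _ hD', hv'⟩
      · exact ⟨D, mem_union_left _ (mem_erase.2 ⟨hDC, hD⟩), hvD⟩
    · intro D hD D' hD' hne
      rcases mem_union.1 hD with hD | hD <;> rcases mem_union.1 hD' with hD' | hD'
      · exact h.disj D (mem_of_mem_erase hD) D' (mem_of_mem_erase hD') hne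
      · exact Finset.disjoint_of_subset_right (hPC D' hD') (hQC D hD)
      · exact (Finset.disjoint_of_subset_right (hPC D hD) (hQC D' hD')).symm
      · exact hP.disj D hD D' hD' hne
    · intro D hD
      rcases mem_union.1 hD with hD | hD
      · exact h.ne D (mem_of_mem_erase hD)
      · exact hP.ne D hD
    · intro D hD v hv w hvw hw
      rw [mem_compl, mem_union, not_or] at hw
      rcases mem_union.1 hD with hD | hD
      · exact h.sepa D (mem_of_mem_erase hD) v hv w hvw (mem_compl.2 hw.1)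
      · have hwC : w ∈ C := h.sepa C hC v (hPC D hD hv) w hvw (mem_compl.2 hw.1)
        exact hP.sepa D hD v hv w hvw (mem_sdiff.2 ⟨hwC, hw.2⟩)
  · unfold oddc
    rw [filter_union, card_union_of_disjoint]
    rw [Finset.disjoint_left]
    intro D hD hD'
    obtain ⟨h1, -⟩ := mem_filter.1 hD
    obtain ⟨h2, -⟩ := mem_filter.1 hD'
    obtain ⟨x, hx⟩ := hP.ne D h2
    exact (Finset.disjoint_left.1 (hQC D h1)) hx (hPC D h2 hx)

lemma oddc_erase {Q : Finset (Finset V)} {C : Finset V} (hC : C ∈ Q) :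
    oddc (Q.erase C) + (if Odd C.card then 1 else 0) = oddc Q := by
  unfold oddc
  rw [filter_erase]
  split_ifs with h
  · rw [card_erase_of_mem (mem_filter.2 ⟨hC, h⟩)]
    have : 0 < (Q.filter (fun C => Odd C.card)).card :=
      card_pos.2 ⟨C, mem_filter.2 ⟨hC, h⟩⟩
    omega
  · rw [erase_eq_of_notMem (a := C) (s := Q.filter (fun C => Odd C.card))
      (fun h' => h (mem_filter.1 h').2)]
    rfl

/-- merge a part `A` of `S` with the parts touching it -/
lemma Sep.merge {S A : Finset V} {Q : Finset (Finset V)} (h : Sep H Sᶜ Q) (hA : A ⊆ S)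
    (hne : A.Nonempty) (T : Finset (Finset V))
    (hT : T = Q.filter (fun C => ∃ s ∈ A, ∃ v ∈ C, H.Adj s v)) :
    Sep H (S \ A)ᶜ (insert (A ∪ T.biUnion id) (Q \ T)) := by
  have hTQ : T ⊆ Q := by rw [hT]; exact filter_subset _ _
  have hdA : ∀ D ∈ Q, Disjoint D A := by
    intro D hD
    rw [Finset.disjoint_left]
    intro v hv hvA
    exact (mem_compl.1 (h.sub D hD hv)) (hA hvA)
  have key : ∀ D ∈ Q \ T, Disjoint D (A ∪ T.biUnion id) := by
    intro D hD
    obtain ⟨hD1, hD2⟩ := mem_sdiff.1 hD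
    rw [disjoint_union_right, disjoint_biUnion_right]
    refine ⟨hdA D hD1, fun D' hD' => h.disj D hD1 D' (hTQ hD') ?_⟩
    rintro rfl; exact hD2 hD'
  refine ⟨?_, ?_, ?_, ?_, ?_⟩
  · intro D hD v hv
    rw [mem_compl, mem_sdiff, not_and, not_not]
    intro hvS
    rcases mem_insert.1 hD with rfl | hD
    · rcases mem_union.1 hv with hv | hv
      · exact hv
      · obtain ⟨D', hD', hv'⟩ := mem_biUnion.1 hv
        exact absurd hvS (mem_compl.1 (h.sub D' (hTQ hD') hv'))
    · exact absurd hvS (mem_compl.1 (h.sub D (mem_sdiff.1 hD).1 hv))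
  · intro v hv
    rw [mem_compl, mem_sdiff, not_and, not_not] at hv
    by_cases hvS : v ∈ S
    · exact ⟨_, mem_insert_self _ _, mem_union_left _ (hv hvS)⟩
    · obtain ⟨D, hD, hvD⟩ := h.cov v (mem_compl.2 hvS)
      by_cases hDT : D ∈ T
      · exact ⟨_, mem_insert_self _ _, mem_union_right _ (mem_biUnion.2 ⟨D, hDT, hvD⟩)⟩
      · exact ⟨D, mem_insert_of_mem (mem_sdiff.2 ⟨hD, hDT⟩), hvD⟩
  · intro D hD D' hD' hne'
    rcases mem_insert.1 hD with rfl | hD <;> rcases mem_insert.1 hD' with rfl | hD'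
    · exact absurd rfl hne'
    · exact (key D' hD').symm
    · exact key D hD
    · exact h.disj D (mem_sdiff.1 hD).1 D' (mem_sdiff.1 hD').1 hne'
  · intro D hD
    rcases mem_insert.1 hD with rfl | hD
    · exact hne.mono subset_union_left
    · exact h.ne D (mem_sdiff.1 hD).1
  · intro D hD v hv w hvw hw
    rw [mem_compl, mem_sdiff, not_and, not_not] at hw
    rcases mem_insert.1 hD with rfl | hD
    · by_cases hwS : w ∈ S
      · exact mem_union_left _ (hw hwS)
      · rcases mem_union.1 hv with hv | hv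
        · obtain ⟨D, hD, hwD⟩ := h.cov w (mem_compl.2 hwS)
          refine mem_union_right _ (mem_biUnion.2 ⟨D, ?_, hwD⟩)
          rw [hT]
          exact mem_filter.2 ⟨hD, v, hv, w, hwD, hvw⟩
        · obtain ⟨D', hD', hv'⟩ := mem_biUnion.1 hv
          exact mem_union_right _ (mem_biUnion.2 ⟨D', hD',
            h.sepa D' (hTQ hD') v hv' w hvw (mem_compl.2 hwS)⟩)
    · obtain ⟨hD1, hD2⟩ := mem_sdiff.1 hD
      refine h.sepa D hD1 v hv w hvw (mem_compl.2 fun hwS => hD2 ?_)
      rw [hT]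
      exact mem_filter.2 ⟨hD1, w, hw hwS, v, hv, hvw.symm⟩

end

theorem t : StmtT := by
  intro V _ H
  set n := Fintype.card V with hn
  have hcard : ∀ S : Finset V, S.card ≤ n := fun S => card_le_univ S
  let val : Finset V × Finset (Finset V) → ℕ :=
    fun p => (oddc p.2 + n - p.1.card) * (n + 1) + p.1.card
  let fam : Finset (Finset V × Finset (Finset V)) := univ.filter (fun p => Sep H p.1ᶜ p.2)
  have hfam : fam.Nonempty := by
    refine ⟨(univ, ∅), mem_filter.2 ⟨mem_univ _, ?_, ?_, ?_, ?_, ?_⟩⟩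
    · intro C hC; simp at hC
    · intro v hv; simp at hv
    · intro C hC; simp at hC
    · intro C hC; simp at hC
    · intro C hC; simp at hC
  obtain ⟨⟨S, Q⟩, hSQ, hmax⟩ := exists_max_image fam val hfam
  have hsep : Sep H Sᶜ Q := (mem_filter.1 hSQ).2
  have hmax' : ∀ S' Q', Sep H S'ᶜ Q' →
      (oddc Q' + n - S'.card) * (n + 1) + S'.card ≤ (oddc Q + n - S.card) * (n + 1) + S.card :=
    fun S' Q' h => hmax (S', Q') (mem_filter.2 ⟨mem_univ _, h⟩)
  have H1 : ∀ S' Q', Sep H S'ᶜ Q' → oddc Q' + S.card ≤ oddc Q + S'.card := by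
    intro S' Q' h
    by_contra hlt
    push Not at hlt
    have h1 := hmax' S' Q' h
    have h2 := hcard S
    have h3 := hcard S'
    have h4 : (oddc Q + n - S.card) + 1 ≤ oddc Q' + n - S'.card := by omega
    have h5 : ((oddc Q + n - S.card) + 1) * (n + 1) ≤ (oddc Q' + n - S'.card) * (n + 1) :=
      Nat.mul_le_mul_right _ h4
    rw [add_mul, one_mul] at h5
    omega
  have H2 : ∀ S' Q', Sep H S'ᶜ Q' → oddc Q + S'.card ≤ oddc Q' + S.card → S'.card ≤ S.card := by
    intro S' Q' h h0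
    have h1 := hmax' S' Q' h
    have h2 := hcard S
    have h3 := hcard S'
    have h4 : (oddc Q + n - S.card) ≤ oddc Q' + n - S'.card := by omega
    have h5 : (oddc Q + n - S.card) * (n + 1) ≤ (oddc Q' + n - S'.card) * (n + 1) :=
      Nat.mul_le_mul_right _ h4
    omega
  have hodd : ∀ C ∈ Q, Odd C.card := by
    intro C hC
    by_contra hev
    obtain ⟨v, hv⟩ := hsep.ne C hC
    have hev' : Even C.card := Nat.not_odd_iff_even.1 hev
    have hpos : 0 < C.card := card_pos.2 ⟨v, hv⟩
    have hc1 : (C \ {v}).card = C.card - 1 := by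
      rw [card_sdiff_of_subset (by simpa using hv)]; simp
    have hoddC : Odd (C \ {v}).card := by
      rw [hc1]
      obtain ⟨k, hk⟩ := hev'
      exact ⟨k - 1, by omega⟩
    have hP : Sep H (C \ {v}) {C \ {v}} := by
      refine ⟨?_, ?_, ?_, ?_, ?_⟩
      · intro D hD; rw [mem_singleton.1 hD]
      · intro w hw; exact ⟨_, mem_singleton_self _, hw⟩
      · intro D hD D' hD' hne
        rw [mem_singleton] at hD hD'
        exact absurd (hD.trans hD'.symm) hne
      · intro D hD
        rw [mem_singleton.1 hD]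
        exact card_pos.1 hoddC.pos
      · intro D hD w _ z _ hz
        rw [mem_singleton.1 hD]; exact hz
    obtain ⟨h1, h2⟩ := hsep.replace hC (by simpa using hv) hP
    have h3 := oddc_erase hC
    rw [if_neg hev] at h3
    have h4 : oddc ({C \ {v}} : Finset (Finset V)) = 1 := by
      unfold oddc
      rw [filter_singleton, if_pos hoddC, card_singleton]
    have hvS : v ∉ S := mem_compl.1 (hsep.sub C hC hv)
    have h5 : (S ∪ {v}).card = S.card + 1 := by
      rw [card_union_of_disjoint (by simpa using hvS), card_singleton]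
    have := H2 _ _ h1 (by omega)
    omega
  have hoddQ : ∀ Q' ⊆ Q, oddc Q' = Q'.card := by
    intro Q' hQ'
    unfold oddc
    rw [filter_true_of_mem (fun C hC => hodd C (hQ' hC))]
  have hfc : ∀ C ∈ Q, ∀ v ∈ C, ∃ m : V → V,
      ∀ u ∈ C, u ≠ v → m u ∈ C ∧ m u ≠ v ∧ H.Adj u (m u) ∧ m (m u) = u := by
    intro C hC v hv
    have hc1 : (C \ {v}).card = C.card - 1 := by
      rw [card_sdiff_of_subset (by simpa using hv)]; simp
    rcases tutteF H (C \ {v}) with ⟨m, hm⟩ | ⟨U, hU, P, hP, hUP⟩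
    · refine ⟨m, fun u hu huv => ?_⟩
      obtain ⟨h1, h2, h3⟩ := hm u (by simp [hu, huv])
      rw [mem_sdiff, mem_singleton] at h1
      exact ⟨h1.1, h1.2, h2, h3⟩
    · exfalso
      have hvU : v ∉ U := fun h => by simpa using hU h
      have hU' : insert v U ⊆ C := by
        intro w hw
        rcases mem_insert.1 hw with rfl | hw
        · exact hv
        · exact (mem_sdiff.1 (hU hw)).1
      have he : (C \ {v}) \ U = C \ insert v U := by
        ext w; simp only [mem_sdiff, mem_singleton, mem_insert, not_or]; tauto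
      rw [he] at hP
      obtain ⟨h1, h2⟩ := hsep.replace hC hU' hP
      have h3 := oddc_erase hC
      rw [if_pos (hodd C hC)] at h3
      have hpar := hP.parity
      have hcc : (C \ insert v U).card = C.card - (U.card + 1) := by
        rw [card_sdiff_of_subset hU', card_insert_of_notMem hvU]
      have hle : U.card + 1 ≤ C.card := by
        rw [← card_insert_of_notMem hvU]; exact card_le_card hU'
      have hCo := hodd C hC
      have h6 : U.card + 2 ≤ oddc P := by
        rw [hcc] at hpar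
        by_contra hlt
        have h7 : oddc P = U.card + 1 := by omega
        rw [h7] at hpar
        simp only [Nat.odd_iff] at hpar hCo
        omega
      have hdis : Disjoint S (insert v U) := by
        rw [Finset.disjoint_left]
        intro w hw hw'
        exact (mem_compl.1 (hsep.sub C hC (hU' hw'))) hw
      have h5 : (S ∪ insert v U).card = S.card + (U.card + 1) := by
        rw [card_union_of_disjoint hdis, card_insert_of_notMem hvU]
      have := H2 _ _ h1 (by omega)
      omega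
  -- Hall
  have hall : ∃ f : {s // s ∈ S} → Finset V, Function.Injective f ∧
      ∀ s, f s ∈ Q.filter (fun C => ∃ v ∈ C, H.Adj s.1 v) := by
    rw [← Finset.all_card_le_biUnion_card_iff_exists_injective]
    intro A
    by_contra hlt
    push Not at hlt
    have hAne : A.Nonempty := by
      rw [nonempty_iff_ne_empty]
      rintro rfl
      simp at hlt
    set A' : Finset V := A.map (Function.Embedding.subtype _) with hA'
    have hmA' : ∀ w, w ∈ A' ↔ ∃ h : w ∈ S, (⟨w, h⟩ : {s // s ∈ S}) ∈ A := by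
      intro w; simp [hA']
    have hA'S : A' ⊆ S := fun w hw => ((hmA' w).1 hw).1
    have hA'ne : A'.Nonempty := by rw [hA']; exact hAne.map
    have hA'c : A'.card = A.card := by rw [hA', card_map]
    set T := Q.filter (fun C => ∃ s ∈ A', ∃ v ∈ C, H.Adj s v) with hT
    have hTe : A.biUnion (fun s => Q.filter (fun C => ∃ v ∈ C, H.Adj s.1 v)) = T := by
      ext C
      simp only [mem_biUnion, mem_filter, hT]
      constructor
      · rintro ⟨s, hs, hC, v, hv, hsv⟩
        exact ⟨hC, s.1, (hmA' _).2 ⟨s.2, hs⟩, v, hv, hsv⟩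
      · rintro ⟨hC, s, hs, v, hv, hsv⟩
        obtain ⟨h, hs'⟩ := (hmA' _).1 hs
        exact ⟨⟨s, h⟩, hs', hC, v, hv, hsv⟩
    rw [hTe] at hlt
    have hm := hsep.merge hA'S hA'ne T hT
    have h1 := H1 _ _ hm
    have hTQ : T ⊆ Q := by rw [hT]; exact filter_subset _ _
    have h2 : oddc (Q \ T) ≤ oddc (insert (A' ∪ T.biUnion id) (Q \ T)) := by
      unfold oddc
      exact card_le_card (filter_subset_filter _ (subset_insert _ _))
    rw [hoddQ _ sdiff_subset, card_sdiff_of_subset hTQ] at h2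
    have h3 := hoddQ Q (Subset.refl _)
    have h4 : (S \ A').card = S.card - A'.card := card_sdiff_of_subset hA'S
    have h5 := card_le_card hA'S
    have h6 := card_le_card hTQ
    have h7 : (S \ A').card + A'.card = S.card := by omega
    omega
  obtain ⟨f, hfi, hf⟩ := hall
  refine ⟨S, Q, ?_, ?_, hsep.disj, hsep.ne, ?_, hfc, ?_⟩
  · intro C hC v hv; exact mem_compl.1 (hsep.sub C hC hv)
  · intro v hv; exact hsep.cov v (mem_compl.2 hv)
  · intro C hC v hv w hvw
    by_cases hw : w ∈ S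
    · exact Or.inr hw
    · exact Or.inl (hsep.sepa C hC v hv w hvw (mem_compl.2 hw))
  · refine ⟨fun s => if h : s ∈ S then f ⟨s, h⟩ else ∅, ?_, ?_⟩
    · intro s hs
      have e1 : (if h : s ∈ S then f ⟨s, h⟩ else ∅) = f ⟨s, hs⟩ := dif_pos hs
      show (if h : s ∈ S then f ⟨s, h⟩ else ∅) ∈ Q ∧
        ∃ v ∈ (if h : s ∈ S then f ⟨s, h⟩ else ∅), H.Adj s v
      rw [e1]
      exact mem_filter.1 (hf ⟨s, hs⟩)
    · intro s hs t ht hst
      have e1 : (if h : s ∈ S then f ⟨s, h⟩ else ∅) = f ⟨s, hs⟩ := dif_pos hs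
      have e2 : (if h : t ∈ S then f ⟨t, h⟩ else ∅) = f ⟨t, ht⟩ := dif_pos ht
      have hst' : f ⟨s, hs⟩ = f ⟨t, ht⟩ := by rw [← e1, ← e2]; exact hst
      exact congrArg Subtype.val (hfi hst')

end Pool.Agent.H34.F14
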